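import Pool.Agent.Q20.ML.Deg

set_option autoImplicit false

/-! An executable algorithm on coefficient lists (constant term first). -/

namespace Pool.Agent.Q20.ML
open Polynomial

/-- the polynomial with the given coefficient list, constant term first -/
noncomputable def poly : List ℤ → ℤ[X]
  | [] => 0
  | a :: l => C a + X * poly l

/-- the length of a coefficient list -/
def lenL (l : List ℤ) : ℕ := (l.map Int.natAbs).sum

/-- `f - t * q` on coefficient lists -/
def axpy (t : ℤ) : List ℤ → List ℤ → List ℤ
  | [], [] => []
  | a :: f, [] => a :: f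
  | [], b :: q => (-(t * b)) :: axpy t [] q
  | a :: f, b :: q => (a - t * b) :: axpy t f q

/-- division test: is `f` equal to `(p0 + x p')` times a polynomial with `n` coefficients? -/
def divs (p0 : ℤ) (p' : List ℤ) : ℕ → List ℤ → Bool
  | 0, f => f.all (fun a => a == 0)
  | n + 1, f => decide (p0 ∣ f.headD 0) && divs p0 p' n (axpy (f.headD 0 / p0) f.tail p')

/-- all coefficient lists with `n` entries in `[-B, B]` -/
def allLists (B : ℕ) : ℕ → List (List ℤ)
  | 0 => [[]]
  | n + 1 => (allLists B n).flatMap (fun l => (List.range (2 * B + 1)).map (fun j : ℕ => ((j : ℤ) - (B : ℤ)) :: l))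

/-- the shorter of two lists -/
def better (f g : List ℤ) : List ℤ := if lenL g < lenL f then g else f

/-- the algorithm: search all coefficient lists up to the degree bound -/
def algo (p : List ℤ) : List ℤ :=
  ((allLists (lenL p) (bnd (p.length - 1) (p.getD (p.length - 1) 0).natAbs (lenL p) (lenL p) + 1)).filter
    (fun f => !(f.all (fun a => a == 0)) &&
      divs (p.headD 0) p.tail (bnd (p.length - 1) (p.getD (p.length - 1) 0).natAbs (lenL p) (lenL p) + 1) f)).foldl better p

lemma poly_coeff (l : List ℤ) (i : ℕ) : (poly l).coeff i = l.getD i 0 := by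
  induction l generalizing i with
  | nil => simp [poly]
  | cons a l ih =>
    rw [poly, coeff_add]
    cases i with
    | zero => simp
    | succ i => rw [coeff_X_mul, ih, coeff_C_succ, zero_add]; rfl

lemma poly_natDegree_lt (l : List ℤ) {n : ℕ} (hl : l.length ≤ n) (hn : 0 < n) : (poly l).natDegree < n := by
  have : (poly l).natDegree ≤ n - 1 := by
    rw [natDegree_le_iff_coeff_eq_zero]
    intro j hj
    rw [poly_coeff, List.getD_eq_default _ _ (by omega)]
  omega

lemma len_poly (l : List ℤ) : len (poly l) = lenL l := by
  induction l with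
  | nil => simp [poly, len, lenL]
  | cons a l ih =>
    rw [len_eq (poly (a :: l)) (poly_natDegree_lt (a :: l) (n := l.length + 1 + 1) (by simp) (by omega)), Finset.sum_range_succ']
    have h1 : ∑ i ∈ Finset.range (l.length + 1), ((poly (a :: l)).coeff (i + 1)).natAbs = lenL l := by
      rw [← ih, len_eq (poly l) (poly_natDegree_lt l (n := l.length + 1) (by omega) (by omega))]
      refine Finset.sum_congr rfl (fun i _ => ?_)
      rw [poly_coeff, poly_coeff]
      simp
    rw [h1, poly_coeff]
    simp [lenL, add_comm]

lemma all_zero (f : List ℤ) : f.all (fun a => a == 0) = true ↔ poly f = 0 := by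
  induction f with
  | nil => simp [poly]
  | cons a f ih =>
    rw [List.all_cons, Bool.and_eq_true, ih, poly]
    constructor
    · rintro ⟨h1, h2⟩
      rw [h2, beq_iff_eq.1 h1]; simp
    · intro h
      have h0 := congrArg (fun q => Polynomial.coeff q 0) h
      simp at h0
      subst h0
      refine ⟨by simp, ?_⟩
      rw [C_0, zero_add] at h
      exact (mul_eq_zero.1 h).resolve_left X_ne_zero

lemma poly_axpy (t : ℤ) (f q : List ℤ) : poly (axpy t f q) = poly f - C t * poly q := by
  induction f generalizing q with
  | nil =>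
    induction q with
    | nil => simp [axpy, poly]
    | cons b q ih =>
      have h1 : poly (axpy t [] (b :: q)) = C (-(t * b)) + X * poly (axpy t [] q) := rfl
      rw [h1, ih]
      simp only [poly, C_neg, C_mul]
      ring
  | cons a f ih =>
    cases q with
    | nil => simp [axpy, poly]
    | cons b q =>
      rw [axpy, poly, ih]
      simp only [poly, C_sub, C_mul]
      ring

lemma poly_headD_tail (f : List ℤ) : poly f = C (f.headD 0) + X * poly f.tail := by
  cases f with
  | nil => simp [poly]
  | cons a f => simp [poly]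

theorem divs_spec {p0 : ℤ} (hp0 : p0 ≠ 0) (p' : List ℤ) (n : ℕ) (f : List ℤ) :
    divs p0 p' n f = true ↔ ∃ T : ℤ[X], T.degree < n ∧ poly f = (C p0 + X * poly p') * T := by
  induction n generalizing f with
  | zero =>
    rw [divs, all_zero]
    constructor
    · intro h
      exact ⟨0, by simp, by rw [h, mul_zero]⟩
    · rintro ⟨T, hT, h⟩
      have hT0 : T = 0 := by
        by_contra hne
        have := zero_le_degree_iff.2 hne
        exact absurd hT (not_lt.2 (by simpa using this))
      rw [h, hT0, mul_zero]
  | succ n ih =>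
    rw [divs, Bool.and_eq_true, decide_eq_true_iff, ih, poly_axpy]
    constructor
    · rintro ⟨hd, T, hT, h⟩
      refine ⟨C (f.headD 0 / p0) + X * T, ?_, ?_⟩
      · have h1 : (C (f.headD 0 / p0)).degree < ((n + 1 : ℕ) : WithBot ℕ) :=
          lt_of_le_of_lt degree_C_le (by exact_mod_cast Nat.succ_pos n)
        have h2 : (X * T).degree < ((n + 1 : ℕ) : WithBot ℕ) := by
          by_cases hT0 : T = 0
          · rw [hT0, mul_zero, degree_zero]; exact WithBot.bot_lt_coe _
          · rw [degree_eq_natDegree (mul_ne_zero X_ne_zero hT0), natDegree_X_mul hT0]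
            have := (natDegree_lt_iff_degree_lt hT0).2 hT
            exact_mod_cast Nat.succ_lt_succ this
        exact lt_of_le_of_lt (degree_add_le _ _) (max_lt h1 h2)
      · rw [poly_headD_tail f]
        have h3 : f.headD 0 = p0 * (f.headD 0 / p0) := (Int.mul_ediv_cancel' hd).symm
        have h4 : poly f.tail = C (f.headD 0 / p0) * poly p' + (C p0 + X * poly p') * T := by
          rw [← h]; ring
        rw [h4]
        conv_lhs => rw [h3]
        rw [C_mul]
        have h5 : p0 * (f.headD 0 / p0) / p0 = f.headD 0 / p0 := by rw [← h3]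
        rw [h5]
        ring
    · rintro ⟨T, hT, h⟩
      have h0 : (poly f).coeff 0 = ((C p0 + X * poly p') * T).coeff 0 := by rw [h]
      rw [poly_headD_tail f] at h0
      simp only [coeff_add, coeff_C_zero, mul_coeff_zero, coeff_X_zero, zero_mul, add_zero] at h0
      have hd : p0 ∣ f.headD 0 := ⟨_, h0⟩
      have hq : f.headD 0 / p0 = T.coeff 0 := by rw [h0]; exact Int.mul_ediv_cancel_left _ hp0
      refine ⟨hd, T.divX, ?_, ?_⟩
      · by_cases hT0 : T.divX = 0
        · rw [hT0, degree_zero]; exact WithBot.bot_lt_coe _
        · have hTne : T ≠ 0 := by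
            rintro rfl
            exact hT0 divX_zero
          rw [degree_eq_natDegree hT0, natDegree_divX_eq_natDegree_tsub_one]
          have h1 := (natDegree_lt_iff_degree_lt hTne).2 hT
          have h2 : T.natDegree ≠ 0 := by
            intro h3
            rw [eq_C_of_natDegree_eq_zero h3] at hT0
            exact hT0 (divX_C _)
          exact_mod_cast (show T.natDegree - 1 < n by omega)
      · rw [hq]
        have hTX : T = C (T.coeff 0) + X * T.divX := by
          conv_lhs => rw [← divX_mul_X_add T]
          ring
        have h1 : X * (poly f.tail - C (T.coeff 0) * poly p') = X * ((C p0 + X * poly p') * T.divX) := by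
          rw [poly_headD_tail f, h0, C_mul] at h
          have h2 : (C p0 + X * poly p') * T = (C p0 + X * poly p') * (C (T.coeff 0) + X * T.divX) := by
            conv_lhs => rw [hTX]
          rw [h2] at h
          linear_combination h
        exact mul_left_cancel₀ X_ne_zero h1

lemma mem_allLists (B n : ℕ) (f : List ℤ) (hf : f.length = n) (hB : ∀ a ∈ f, a.natAbs ≤ B) : f ∈ allLists B n := by
  induction n generalizing f with
  | zero => rw [List.length_eq_zero_iff] at hf; subst hf; simp [allLists]
  | succ n ih =>
    cases f with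
    | nil => simp at hf
    | cons a f =>
      rw [allLists, List.mem_flatMap]
      refine ⟨f, ih f (by simpa using hf) (fun b hb => hB b (List.mem_cons_of_mem _ hb)), ?_⟩
      rw [List.mem_map]
      have h1 := hB a List.mem_cons_self
      refine ⟨(a + B).toNat, ?_, ?_⟩
      · rw [List.mem_range]; omega
      · congr 1
        omega

lemma foldl_better (L : List (List ℤ)) (p : List ℤ) :
    (L.foldl better p = p ∨ L.foldl better p ∈ L) ∧ lenL (L.foldl better p) ≤ lenL p ∧ ∀ f ∈ L, lenL (L.foldl better p) ≤ lenL f := by
  induction L generalizing p with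
  | nil => simp
  | cons g L ih =>
    rw [List.foldl_cons]
    obtain ⟨h1, h2, h3⟩ := ih (better p g)
    have hb : (better p g = p ∨ better p g = g) ∧ lenL (better p g) ≤ lenL p ∧ lenL (better p g) ≤ lenL g := by
      unfold better
      split_ifs with h
      · exact ⟨Or.inr rfl, h.le, le_rfl⟩
      · exact ⟨Or.inl rfl, le_rfl, not_lt.1 h⟩
    refine ⟨?_, h2.trans hb.2.1, ?_⟩
    · rcases h1 with h1 | h1
      · rw [h1]
        rcases hb.1 with h | h
        · left; exact h
        · right; rw [h]; exact List.mem_cons_self
      · right; exact List.mem_cons_of_mem _ h1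
    · intro f hf
      rcases List.mem_cons.1 hf with rfl | hf
      · exact h2.trans hb.2.2
      · exact h3 f hf

/-- every polynomial of small degree is given by a list of fixed size -/
lemma exists_list (F : ℤ[X]) (n : ℕ) (hn : F.natDegree < n) : ∃ f : List ℤ, f.length = n ∧ poly f = F ∧ ∀ a ∈ f, a.natAbs ≤ len F := by
  refine ⟨(List.range n).map (fun i => F.coeff i), by simp, ?_, ?_⟩
  · ext i
    rw [poly_coeff]
    by_cases hi : i < n
    · rw [List.getD_eq_getElem _ _ (by simpa using hi)]
      simp
    · rw [List.getD_eq_default _ _ (by simpa using hi)]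
      exact (coeff_eq_zero_of_natDegree_lt (by omega)).symm
  · intro a ha
    rw [List.mem_map] at ha
    obtain ⟨i, hi, rfl⟩ := ha
    rw [len_eq F hn]
    exact Finset.single_le_sum (f := fun i => (F.coeff i).natAbs) (fun _ _ => Nat.zero_le _) (Finset.mem_range.2 (List.mem_range.1 hi))

/-- correctness of the algorithm -/
theorem algo_correct (p : List ℤ) (hlast : p.getD (p.length - 1) 0 ≠ 0) (hirr : Irreducible (poly p)) (hdeg : (poly p).natDegree ≠ 0)
    (hlead : ¬ IsUnit (poly p).leadingCoeff) (hroots : ∀ z : ℂ, aeval z (poly p) = 0 → ‖z‖ ≤ 1) :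
    IsMin (poly p) (poly (algo p)) := by
  have hpne : p ≠ [] := by
    rintro rfl
    simp at hlast
  have hlen0 : 0 < p.length := List.length_pos_iff.2 hpne
  have hd : (poly p).natDegree = p.length - 1 := by
    apply le_antisymm
    · have := poly_natDegree_lt p le_rfl hlen0
      omega
    · apply le_natDegree_of_ne_zero
      rw [poly_coeff]; exact hlast
  have hlc : (poly p).leadingCoeff = p.getD (p.length - 1) 0 := by
    rw [leadingCoeff, hd, poly_coeff]
  have hp0 : p.headD 0 ≠ 0 := by
    have h1 := coeff_zero_ne hirr hlead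
    rw [poly_coeff] at h1
    cases p with
    | nil => exact absurd rfl hpne
    | cons a p => simpa using h1
  have hpp : C (p.headD 0) + X * poly p.tail = poly p := (poly_headD_tail p).symm
  obtain ⟨F, hF, hF0⟩ := exists_min hirr hlead
  have hFl : len F ≤ lenL p := by
    rw [← len_poly]
    exact hF.2.2 _ hirr.ne_zero dvd_rfl
  have hFd := degree_bound hirr hdeg hlead hroots hF hF0 hFl
  rw [hd, hlc] at hFd
  set b := bnd (p.length - 1) (p.getD (p.length - 1) 0).natAbs (lenL p) (lenL p) with hb
  obtain ⟨f, hf1, hf2, hf3⟩ := exists_list F (b + 1) (by omega)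
  set L := (allLists (lenL p) (b + 1)).filter (fun f => !(f.all (fun a => a == 0)) && divs (p.headD 0) p.tail (b + 1) f) with hL
  have hfL : f ∈ L := by
    rw [hL, List.mem_filter]
    refine ⟨mem_allLists _ _ f hf1 (fun a ha => (hf3 a ha).trans hFl), ?_⟩
    rw [Bool.and_eq_true, Bool.not_eq_true', ← Bool.not_eq_true, all_zero, divs_spec hp0, hpp, hf2]
    refine ⟨hF.1, ?_⟩
    obtain ⟨T, hT⟩ := hF.2.1
    refine ⟨T, ?_, hT⟩
    have hT0 : T ≠ 0 := by
      rintro rfl
      rw [mul_zero] at hT
      exact hF.1 hT
    rw [← natDegree_lt_iff_degree_lt hT0]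
    have h1 : F.natDegree = (poly p).natDegree + T.natDegree := by
      rw [hT, natDegree_mul hirr.ne_zero hT0]
    omega
  have hLgood : ∀ g ∈ L, poly g ≠ 0 ∧ poly p ∣ poly g := by
    intro g hg
    rw [hL, List.mem_filter, Bool.and_eq_true, Bool.not_eq_true', ← Bool.not_eq_true, all_zero, divs_spec hp0, hpp] at hg
    obtain ⟨-, h1, T, -, hT⟩ := hg
    exact ⟨h1, T, hT⟩
  have hal : algo p = L.foldl better p := rfl
  obtain ⟨h1, h2, h3⟩ := foldl_better L p
  rw [hal]
  have hgood : poly (L.foldl better p) ≠ 0 ∧ poly p ∣ poly (L.foldl better p) := by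
    rcases h1 with h1 | h1
    · rw [h1]; exact ⟨hirr.ne_zero, dvd_rfl⟩
    · exact hLgood _ h1
  refine ⟨hgood.1, hgood.2, fun G hG hPG => ?_⟩
  have h4 : len (poly (L.foldl better p)) ≤ len F := by
    rw [len_poly, ← hf2, len_poly]
    exact h3 f hfL
  exact h4.trans (hF.2.2 G hG hPG)

end Pool.Agent.Q20.ML
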