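import Pool.Agent.Q20.ML.Gap

set_option autoImplicit false

/-! The degree of a minimum-length multiple. -/

namespace Pool.Agent.Q20.ML
open Polynomial

/-- `F` is a minimum-length multiple of `P` -/
def IsMin (P F : ℤ[X]) : Prop := F ≠ 0 ∧ P ∣ F ∧ ∀ G : ℤ[X], G ≠ 0 → P ∣ G → len F ≤ len G

/-- the degree bound -/
def bnd (d A l : ℕ) : ℕ → ℕ
  | 0 => 0
  | k + 1 => bnd d A l k + Nat.log 2 ((A ^ bnd d A l k * l) ^ d)

/-- the polynomial with coefficients `c 0, ..., c (N-1)` -/
noncomputable def trunc (c : ℕ → ℤ) (N : ℕ) : ℤ[X] := ∑ i ∈ Finset.range N, C (c i) * X ^ i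

lemma trunc_coeff (c : ℕ → ℤ) (N j : ℕ) : (trunc c N).coeff j = if j < N then c j else 0 := by
  unfold trunc
  rw [finsetSum_coeff]
  simp only [coeff_C_mul, coeff_X_pow, mul_ite, mul_one, mul_zero]
  rw [Finset.sum_ite_eq]
  simp

lemma trunc_natDegree (c : ℕ → ℤ) (N : ℕ) (hN : 0 < N) : (trunc c N).natDegree < N := by
  have : (trunc c N).natDegree ≤ N - 1 := by
    rw [natDegree_le_iff_coeff_eq_zero]
    intro j hj
    rw [trunc_coeff, if_neg (by omega)]
  omega

theorem len_pos {F : ℤ[X]} (hF : F ≠ 0) : 0 < len F := by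
  have h1 : F.natDegree ∈ F.support := natDegree_mem_support_of_nonzero hF
  unfold len
  apply Finset.sum_pos'
  · intro i _; exact Nat.zero_le _
  · exact ⟨_, h1, Int.natAbs_pos.2 (mem_support_iff.1 h1)⟩

theorem card_support_le (F : ℤ[X]) : F.support.card ≤ len F := by
  unfold len
  rw [Finset.card_eq_sum_ones]
  exact Finset.sum_le_sum (fun i hi => Int.natAbs_pos.2 (mem_support_iff.1 hi))

theorem degree_bound {P : ℤ[X]} (hirr : Irreducible P) (hdeg : P.natDegree ≠ 0) (hlead : ¬ IsUnit P.leadingCoeff)
    (hroots : ∀ z : ℂ, aeval z P = 0 → ‖z‖ ≤ 1) {F : ℤ[X]} (hF : IsMin P F) (hF0 : F.coeff 0 ≠ 0) {l : ℕ} (hl : len F ≤ l) :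
    F.natDegree ≤ bnd P.natDegree P.leadingCoeff.natAbs l l := by
  set d := P.natDegree with hd
  set A := P.leadingCoeff.natAbs with hA
  set n := F.natDegree with hn
  have hA1 : 1 ≤ A := Int.natAbs_pos.2 (leadingCoeff_ne_zero.2 hirr.ne_zero)
  have hl1 : 1 ≤ l := (len_pos hF.1).trans_le hl
  have key : ∀ k : ℕ, n ≤ bnd d A l k ∨ k + 1 ≤ (F.support.filter (fun i => n - bnd d A l k ≤ i)).card := by
    intro k
    induction k with
    | zero =>
      right
      rw [Nat.succ_le_iff, Finset.card_pos]
      refine ⟨n, ?_⟩
      rw [Finset.mem_filter]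
      exact ⟨natDegree_mem_support_of_nonzero hF.1, by omega⟩
    | succ k ih =>
      by_cases hle : n ≤ bnd d A l (k + 1)
      · left; exact hle
      right
      rw [not_le] at hle
      set M := (A ^ bnd d A l k * l) ^ d with hM
      have hb : bnd d A l (k + 1) = bnd d A l k + Nat.log 2 M := rfl
      have hnk : ¬ n ≤ bnd d A l k := by omega
      have ih' := ih.resolve_left hnk
      set m := n - bnd d A l k with hm
      by_cases hex : ∃ i ∈ F.support, n - bnd d A l (k + 1) ≤ i ∧ i < m
      · obtain ⟨i, hi, hi1, hi2⟩ := hex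
        have hsub : insert i (F.support.filter (fun j => m ≤ j)) ⊆ F.support.filter (fun j => n - bnd d A l (k + 1) ≤ j) := by
          intro j hj
          rw [Finset.mem_insert, Finset.mem_filter] at hj
          rw [Finset.mem_filter]
          rcases hj with rfl | hj
          · exact ⟨hi, hi1⟩
          · exact ⟨hj.1, by omega⟩
        have hnot : i ∉ F.support.filter (fun j => m ≤ j) := by
          rw [Finset.mem_filter]; omega
        have := Finset.card_le_card hsub
        rw [Finset.card_insert_of_notMem hnot] at this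
        omega
      · exfalso
        push Not at hex
        set m' := n - bnd d A l (k + 1) with hm'
        have hm'0 : 0 < m' := by omega
        have hm0 : 0 < m := by omega
        set T := trunc (fun i => F.coeff (m + i)) (bnd d A l k + 1) with hT
        set S := trunc (fun i => F.coeff i) m' with hS
        have hzero : ∀ i, m' ≤ i → i < m → F.coeff i = 0 := by
          intro i h1 h2
          by_contra h3
          exact absurd (hex i (mem_support_iff.2 h3) h1) (not_le.2 h2)
        have hFTS : F = X ^ m * T + S := by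
          ext j
          rw [coeff_add, coeff_X_pow_mul', hT, hS, trunc_coeff, trunc_coeff]
          by_cases h1 : m ≤ j
          · rw [if_pos h1]
            have h2 : ¬ j < m' := by omega
            rw [if_neg h2, add_zero]
            by_cases h3 : j - m < bnd d A l k + 1
            · rw [if_pos h3, Nat.add_sub_cancel' h1]
            · rw [if_neg h3]
              exact coeff_eq_zero_of_natDegree_lt (by omega)
          · rw [if_neg h1, zero_add]
            by_cases h3 : j < m'
            · rw [if_pos h3]
            · rw [if_neg h3]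
              exact hzero j (by omega) (by omega)
        have hTdeg : T.natDegree < bnd d A l k + 1 := trunc_natDegree _ _ (by omega)
        have hSdeg : S.natDegree < m' := trunc_natDegree _ _ hm'0
        have hT0 : T ≠ 0 := by
          intro h
          have h1 : T.coeff (bnd d A l k) = 0 := by rw [h]; exact coeff_zero _
          rw [hT, trunc_coeff, if_pos (by omega)] at h1
          have h2 : m + bnd d A l k = n := by omega
          rw [h2] at h1
          exact hF.1 (leadingCoeff_eq_zero.1 h1)
        have hlen : len T < len F := by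
          have e1 : len T = ∑ i ∈ Finset.range (bnd d A l k + 1), (F.coeff (m + i)).natAbs := by
            rw [len_eq T hTdeg]
            refine Finset.sum_congr rfl (fun i hi => ?_)
            rw [hT, trunc_coeff, if_pos (Finset.mem_range.1 hi)]
          have e2 : len F = ∑ i ∈ Finset.range m, (F.coeff i).natAbs + ∑ i ∈ Finset.range (bnd d A l k + 1), (F.coeff (m + i)).natAbs := by
            rw [← Finset.sum_range_add, len_eq F (show F.natDegree < m + (bnd d A l k + 1) by omega)]
          have e3 : 0 < ∑ i ∈ Finset.range m, (F.coeff i).natAbs := by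
            apply Finset.sum_pos'
            · intro i _; exact Nat.zero_le _
            · exact ⟨0, Finset.mem_range.2 hm0, Int.natAbs_pos.2 hF0⟩
          omega
        have hPT : ¬ P ∣ T := by
          intro h
          exact absurd (hF.2.2 T hT0 h) (not_le.2 hlen)
        have hdiv : P ∣ X ^ m * T + S := hFTS ▸ hF.2.1
        have hg := gap hirr hdeg hlead hroots T S m (m' - 1) (by omega) (by omega) hdiv hPT
        have h1 : m - (m' - 1) = Nat.log 2 M + 1 := by omega
        rw [h1] at hg
        have h2 : (A ^ T.natDegree * len T) ^ d ≤ M := by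
          rw [hM]
          apply Nat.pow_le_pow_left
          exact Nat.mul_le_mul (Nat.pow_le_pow_right hA1 (by omega)) (by omega)
        have h3 := Nat.lt_pow_succ_log_self (show 1 < 2 by norm_num) M
        exact absurd (hg.trans h2) (not_le.2 h3)
  rcases key l with h | h
  · exact h
  · exfalso
    have h1 := (Finset.card_filter_le F.support (fun i => n - bnd d A l l ≤ i)).trans (card_support_le F)
    omega

/-- `X` does not divide a nonmonic irreducible polynomial -/
theorem coeff_zero_ne {P : ℤ[X]} (hirr : Irreducible P) (hlead : ¬ IsUnit P.leadingCoeff) : P.coeff 0 ≠ 0 := by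
  intro h
  rw [← X_dvd_iff] at h
  obtain ⟨u, hu⟩ := h
  have h1 : IsUnit u := (hirr.isUnit_or_isUnit hu).resolve_left not_isUnit_X
  obtain ⟨r, hr, hru⟩ := Polynomial.isUnit_iff.1 h1
  apply hlead
  rw [hu, leadingCoeff_mul, leadingCoeff_X, one_mul, ← hru, leadingCoeff_C]
  exact hr

lemma len_X_mul (F : ℤ[X]) : len (X * F) = len F := by
  by_cases hF : F = 0
  · rw [hF, mul_zero]
  have h1 : (X * F).natDegree < F.natDegree + 1 + 1 := by rw [natDegree_X_mul hF]; omega
  rw [len_eq _ h1, Finset.sum_range_succ', len_eq F (Nat.lt_succ_self _)]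
  simp

/-- there is a minimum-length multiple with nonzero constant term -/
theorem exists_min {P : ℤ[X]} (hirr : Irreducible P) (hlead : ¬ IsUnit P.leadingCoeff) :
    ∃ F : ℤ[X], IsMin P F ∧ F.coeff 0 ≠ 0 := by
  have hex : ∃ k : ℕ, ∃ F : ℤ[X], F ≠ 0 ∧ P ∣ F ∧ len F = k := ⟨len P, P, hirr.ne_zero, dvd_rfl, rfl⟩
  classical
  obtain ⟨F, hF0, hPF, hFl⟩ := Nat.find_spec hex
  have hmin : IsMin P F := by
    refine ⟨hF0, hPF, fun G hG hPG => ?_⟩
    rw [hFl]
    exact Nat.find_min' hex ⟨G, hG, hPG, rfl⟩
  have hpr : Prime P := hirr.prime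
  have hPX : ¬ P ∣ X := by
    intro h
    obtain ⟨u, hu⟩ := h
    have h1 : (X : ℤ[X]).coeff 0 ≠ 0 ∨ IsUnit u := by
      right
      have hX : Irreducible (X : ℤ[X]) := irreducible_X
      exact (hX.isUnit_or_isUnit hu).resolve_left hirr.not_isUnit
    have hu' : IsUnit u := by
      rcases h1 with h1 | h1
      · exact absurd coeff_X_zero h1
      · exact h1
    have h2 : P.coeff 0 * u.coeff 0 = 0 := by
      rw [← mul_coeff_zero, ← hu]; exact coeff_X_zero
    obtain ⟨r, hr, hru⟩ := Polynomial.isUnit_iff.1 hu'
    rw [← hru, coeff_C_zero] at h2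
    exact (mul_ne_zero (coeff_zero_ne hirr hlead) hr.ne_zero) h2
  -- divide by powers of X
  have key : ∀ N : ℕ, ∀ F : ℤ[X], F.natDegree ≤ N → IsMin P F → ∃ G : ℤ[X], IsMin P G ∧ G.coeff 0 ≠ 0 := by
    intro N
    induction N with
    | zero =>
      intro F hN hF
      refine ⟨F, hF, ?_⟩
      intro h
      have h1 : F = C (F.coeff 0) := eq_C_of_natDegree_le_zero hN
      rw [h, C_0] at h1
      exact hF.1 h1
    | succ N ih =>
      intro F hN hF
      by_cases h : F.coeff 0 = 0
      · rw [← X_dvd_iff] at h
        obtain ⟨G, hG⟩ := h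
        have hG0 : G ≠ 0 := by
          rintro rfl
          rw [mul_zero] at hG
          exact hF.1 hG
        apply ih G
        · rw [hG, natDegree_X_mul hG0] at hN
          omega
        · refine ⟨hG0, ?_, ?_⟩
          · have h2 : P ∣ X * G := hG ▸ hF.2.1
            exact (hpr.dvd_or_dvd h2).resolve_left hPX
          · intro H hH hPH
            have := hF.2.2 H hH hPH
            rw [hG, len_X_mul] at this
            exact this
      · exact ⟨F, hF, h⟩
  exact key F.natDegree F le_rfl hmin

end Pool.Agent.Q20.ML
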