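import Mathlib

set_option autoImplicit false

/-! Gaps in multiples of a nonmonic irreducible polynomial all of whose zeros lie in the closed unit disc. -/

namespace Pool.Agent.Q20.ML
open Polynomial NumberField IsDedekindDomain

/-- the length: the sum of the absolute values of the coefficients -/
noncomputable def len (F : ℤ[X]) : ℕ := ∑ i ∈ F.support, (F.coeff i).natAbs

lemma len_eq (F : ℤ[X]) {N : ℕ} (hN : F.natDegree < N) : len F = ∑ i ∈ Finset.range N, (F.coeff i).natAbs := by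
  unfold len
  apply Finset.sum_subset
  · intro i hi
    rw [Finset.mem_range]
    exact lt_of_le_of_lt (le_natDegree_of_mem_supp i hi) hN
  · intro i _ hi
    rw [notMem_support_iff] at hi
    rw [hi]; rfl

theorem exists_field {P : ℤ[X]} (hirr : Irreducible P) (hdeg : P.natDegree ≠ 0) :
    ∃ (K : Type) (_ : Field K) (_ : NumberField K) (α : K), eval₂ (Int.castRingHom K) α P = 0 ∧ Module.finrank ℚ K = P.natDegree ∧
      ∀ T : ℤ[X], eval₂ (Int.castRingHom K) α T = 0 → P ∣ T := by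
  have hprim : P.IsPrimitive := hirr.isPrimitive hdeg
  have hirrQ : Irreducible (P.map (Int.castRingHom ℚ)) :=
    (IsPrimitive.Int.irreducible_iff_irreducible_map_cast hprim).1 hirr
  have : Fact (Irreducible (P.map (Int.castRingHom ℚ))) := ⟨hirrQ⟩
  set f := P.map (Int.castRingHom ℚ) with hf
  have hf0 : f ≠ 0 := hirrQ.ne_zero
  have hfin : FiniteDimensional ℚ (AdjoinRoot f) := (AdjoinRoot.powerBasis hf0).finite
  have hchar : CharZero (AdjoinRoot f) := charZero_of_injective_algebraMap (algebraMap ℚ (AdjoinRoot f)).injective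
  have key : ∀ T : ℤ[X], eval₂ (Int.castRingHom (AdjoinRoot f)) (AdjoinRoot.root f) T = AdjoinRoot.mk f (T.map (Int.castRingHom ℚ)) := by
    intro T
    rw [← AdjoinRoot.aeval_eq, aeval_def, eval₂_map]
    congr 1
  have hnf : NumberField (AdjoinRoot f) := by
    refine @NumberField.mk _ _ hchar ?_
    convert hfin
  refine ⟨AdjoinRoot f, inferInstance, hnf, AdjoinRoot.root f, ?_, ?_, ?_⟩
  · exact (key P).trans AdjoinRoot.mk_self
  · have h1 : Module.finrank ℚ (AdjoinRoot f) = f.natDegree := by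
      rw [(AdjoinRoot.powerBasis hf0).finrank, AdjoinRoot.powerBasis_dim]
    have h2 : f.natDegree = P.natDegree := natDegree_map_eq_of_injective Int.cast_injective P
    rw [← h2, ← h1]
  · intro T hT
    replace hT := (key T).symm.trans hT
    rw [AdjoinRoot.mk_eq_zero] at hT
    by_cases hT0 : T = 0
    · rw [hT0]; exact dvd_zero P
    · obtain ⟨c, hc⟩ : ∃ c : ℤ, T = C c * T.primPart := ⟨T.content, T.eq_C_content_mul_primPart⟩
      have hc0 : T.content ≠ 0 := by rwa [Ne, content_eq_zero_iff]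
      have h3 : f ∣ (T.primPart).map (Int.castRingHom ℚ) := by
        have h4 : T.map (Int.castRingHom ℚ) = C ((T.content : ℤ) : ℚ) * (T.primPart).map (Int.castRingHom ℚ) := by
          conv_lhs => rw [T.eq_C_content_mul_primPart]
          rw [Polynomial.map_mul, map_C]
          rfl
        rw [h4] at hT
        have hu : IsUnit (C ((T.content : ℤ) : ℚ)) := isUnit_C.2 (isUnit_iff_ne_zero.2 (by exact_mod_cast hc0))
        exact (hu.dvd_mul_left).1 hT
      have h5 : P ∣ T.primPart := by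
        rw [IsPrimitive.Int.dvd_iff_map_cast_dvd_map_cast P T.primPart hprim]
        exact h3
      rw [T.eq_C_content_mul_primPart]
      exact h5.mul_left _

section field
variable {K : Type} [Field K] [NumberField K]

lemma emb_bound (φ : K →+* ℂ) {α : K} (hφ : ‖φ α‖ ≤ 1) (T : ℤ[X]) : ‖φ (eval₂ (Int.castRingHom K) α T)‖ ≤ len T := by
  rw [eval₂_eq_sum_range, map_sum, len_eq T (Nat.lt_succ_self T.natDegree)]
  push_cast
  refine (norm_sum_le _ _).trans (Finset.sum_le_sum (fun i _ => ?_))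
  rw [eq_intCast, map_mul, map_intCast, map_pow, norm_mul, norm_pow]
  have h1 : ‖φ α‖ ^ i ≤ 1 := pow_le_one₀ (norm_nonneg _) hφ
  have h2 : ‖((T.coeff i : ℤ) : ℂ)‖ = |((T.coeff i : ℤ) : ℝ)| := by
    rw [Complex.norm_intCast]
  rw [h2, Nat.cast_natAbs, Int.cast_abs]
  calc |((T.coeff i : ℤ) : ℝ)| * ‖φ α‖ ^ i ≤ |((T.coeff i : ℤ) : ℝ)| * 1 := mul_le_mul_of_nonneg_left h1 (abs_nonneg _)
    _ = _ := mul_one _

/-- norm bound for an integer divisible by a high power of a prime ideal -/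
theorem norm_bound (v : HeightOneSpectrum (𝓞 K)) (x : 𝓞 K) (hx : x ≠ 0) (g : ℕ) (hv : v.valuation K (x : K) ≤ WithZero.exp (-(g : ℤ)))
    (B : ℕ) (hB : ∀ φ : K →+* ℂ, ‖φ (x : K)‖ ≤ B) : 2 ^ g ≤ B ^ Module.finrank ℚ K := by
  have h1 : v.intValuation x ≤ WithZero.exp (-(g : ℤ)) := by
    rw [← HeightOneSpectrum.valuation_of_algebraMap (K := K)]
    exact hv
  rw [HeightOneSpectrum.intValuation_le_pow_iff_mem] at h1
  have h2 : Ideal.absNorm (v.asIdeal ^ g) ∣ Ideal.absNorm (Ideal.span {x}) := by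
    apply Ideal.absNorm_dvd_absNorm_of_le
    rwa [Ideal.span_singleton_le_iff_mem]
  rw [map_pow, Ideal.absNorm_span_singleton] at h2
  have hn0 : (Algebra.norm ℤ x).natAbs ≠ 0 := by
    rw [Int.natAbs_ne_zero]
    exact Algebra.norm_ne_zero_iff.2 hx
  have h3 := Nat.le_of_dvd (Nat.pos_of_ne_zero hn0) h2
  have h4 : 2 ^ g ≤ Ideal.absNorm v.asIdeal ^ g := Nat.pow_le_pow_left (NumberField.HeightOneSpectrum.one_lt_absNorm v) g
  have h5 : (((Algebra.norm ℤ x).natAbs : ℕ) : ℝ) ≤ (B : ℝ) ^ Module.finrank ℚ K := by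
    have h6 : ((Algebra.norm ℤ x : ℤ) : ℚ) = Algebra.norm ℚ (x : K) := by
      exact Algebra.coe_norm_int x
    have h7 : (((Algebra.norm ℚ (x : K) : ℚ)) : ℂ) = ∏ σ : K →ₐ[ℚ] ℂ, σ (x : K) := by
      have := Algebra.norm_eq_prod_embeddings ℚ ℂ (x : K)
      rw [← this]
      simp
    have h8 : ‖(((Algebra.norm ℚ (x : K) : ℚ)) : ℂ)‖ ≤ (B : ℝ) ^ Module.finrank ℚ K := by
      rw [h7, norm_prod]
      calc ∏ σ : K →ₐ[ℚ] ℂ, ‖σ (x : K)‖ ≤ ∏ _σ : K →ₐ[ℚ] ℂ, (B : ℝ) :=
            Finset.prod_le_prod (fun σ _ => norm_nonneg _) (fun σ _ => hB σ.toRingHom)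
        _ = (B : ℝ) ^ Module.finrank ℚ K := by
            rw [Finset.prod_const, Finset.card_univ, AlgHom.card]
    rw [← h6] at h8
    have h9 : ‖(((Algebra.norm ℤ x : ℤ) : ℚ) : ℂ)‖ = (((Algebra.norm ℤ x).natAbs : ℕ) : ℝ) := by
      rw [Rat.cast_intCast, Complex.norm_intCast, Nat.cast_natAbs, Int.cast_abs]
    rwa [h9] at h8
  have h6 : (Algebra.norm ℤ x).natAbs ≤ B ^ Module.finrank ℚ K := by exact_mod_cast h5
  exact (h4.trans h3).trans h6

lemma val_int (v : HeightOneSpectrum (𝓞 K)) (c : ℤ) : v.valuation K (c : K) ≤ 1 := by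
  have h1 : (c : K) = algebraMap (𝓞 K) K (c : 𝓞 K) := (map_intCast _ c).symm
  rw [h1]
  exact v.valuation_le_one _

lemma exists_val {α : K} (hα : ¬ IsIntegral ℤ α) : ∃ v : HeightOneSpectrum (𝓞 K), 1 < v.valuation K α := by
  by_contra h
  push Not at h
  obtain ⟨x, hx⟩ := HeightOneSpectrum.mem_integers_of_valuation_le_one K α h
  apply hα
  rw [← hx]
  exact RingOfIntegers.isIntegral_coe x

end field

theorem gap {P : ℤ[X]} (hirr : Irreducible P) (hdeg : P.natDegree ≠ 0) (hlead : ¬ IsUnit P.leadingCoeff)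
    (hroots : ∀ z : ℂ, aeval z P = 0 → ‖z‖ ≤ 1) (T S : ℤ[X]) (m s : ℕ) (hS : S.natDegree ≤ s) (hms : s ≤ m)
    (hdiv : P ∣ X ^ m * T + S) (hT : ¬ P ∣ T) :
    2 ^ (m - s) ≤ (P.leadingCoeff.natAbs ^ T.natDegree * len T) ^ P.natDegree := by
  obtain ⟨K, _, _, α, hα, hfin, hdvd⟩ := exists_field hirr hdeg
  have hP0 : P ≠ 0 := hirr.ne_zero
  have ha0 : P.leadingCoeff ≠ 0 := leadingCoeff_ne_zero.2 hP0
  have hαP : aeval α P = 0 := by rw [aeval_def]; exact hα
  have hint : ¬ IsIntegral ℤ α := by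
    intro hi
    have h1 : minpoly ℤ α ∣ P := minpoly.isIntegrallyClosed_dvd hi hαP
    have h2 := (minpoly.monic hi)
    obtain ⟨u, hu⟩ := h1
    have h3 : ¬ IsUnit (minpoly ℤ α) := minpoly.not_isUnit ℤ α
    have h4 : IsUnit u := (hirr.isUnit_or_isUnit hu).resolve_left h3
    apply hlead
    rw [hu, leadingCoeff_mul, h2.leadingCoeff, one_mul]
    obtain ⟨r, hr, hru⟩ := Polynomial.isUnit_iff.1 h4
    rw [← hru, leadingCoeff_C]
    exact hr
  obtain ⟨v, hv⟩ := exists_val hint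
  set w := v.valuation K α with hw
  have hw0 : w ≠ 0 := (lt_trans zero_lt_one hv).ne'
  have hw1 : WithZero.exp (1 : ℤ) ≤ w := by
    rw [← WithZero.exp_log hw0, WithZero.exp_le_exp]
    have h1 : WithZero.exp (0 : ℤ) < WithZero.exp (WithZero.log w) := by
      rw [WithZero.exp_log hw0]; exact hv
    rw [WithZero.exp_lt_exp] at h1
    omega
  have hwpos : 0 < w := lt_of_lt_of_le (by simp) hw1
  set Tα := eval₂ (Int.castRingHom K) α T with hTα
  have hTα0 : Tα ≠ 0 := fun h => hT (hdvd T h)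
  have hrel : α ^ m * Tα = - eval₂ (Int.castRingHom K) α S := by
    obtain ⟨Q, hQ⟩ := hdiv
    have h1 := congrArg (eval₂ (Int.castRingHom K) α) hQ
    rw [eval₂_add, eval₂_mul, eval₂_pow, eval₂_X, eval₂_mul, hα, zero_mul] at h1
    exact eq_neg_of_add_eq_zero_left h1
  have hvS : v.valuation K (eval₂ (Int.castRingHom K) α S) ≤ w ^ s := by
    rw [eval₂_eq_sum_range]
    apply Valuation.map_sum_le
    intro i hi
    rw [Finset.mem_range] at hi
    rw [map_mul, map_pow, ← hw]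
    have h1 : v.valuation K ((Int.castRingHom K) (S.coeff i)) ≤ 1 := val_int v _
    have h2 : w ^ i ≤ w ^ s := pow_le_pow_right₀ hv.le (by omega)
    calc v.valuation K ((Int.castRingHom K) (S.coeff i)) * w ^ i ≤ 1 * w ^ s := mul_le_mul' h1 h2
      _ = w ^ s := one_mul _
  have hvT : v.valuation K Tα ≤ WithZero.exp (-((m - s : ℕ) : ℤ)) := by
    have h1 := congrArg (v.valuation K) hrel
    rw [map_mul, map_pow, ← hw, Valuation.map_neg] at h1
    have h2 : w ^ m * v.valuation K Tα ≤ w ^ s := h1 ▸ hvS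
    have h3 : w ^ m = w ^ s * w ^ (m - s) := by rw [← pow_add]; congr 1; omega
    rw [h3, mul_assoc] at h2
    have hws : 0 < w ^ s := pow_pos hwpos s
    have h4 : w ^ (m - s) * v.valuation K Tα ≤ 1 := by
      by_contra hcon
      rw [not_le] at hcon
      have := mul_lt_mul_of_pos_left hcon hws
      rw [mul_one] at this
      exact absurd h2 (not_le.2 this)
    have h5 : WithZero.exp (((m - s : ℕ) : ℤ)) ≤ w ^ (m - s) := by
      have h6 := pow_le_pow_left₀ zero_le hw1 (m - s)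
      rw [← WithZero.exp_nsmul] at h6
      simpa using h6
    have h7 : WithZero.exp (((m - s : ℕ) : ℤ)) * v.valuation K Tα ≤ 1 := (mul_le_mul_left h5 _).trans h4
    rw [WithZero.exp_neg]
    rw [← mul_le_mul_iff_of_pos_left (show (0 : WithZero (Multiplicative ℤ)) < WithZero.exp (((m - s : ℕ) : ℤ)) by simp)]
    rw [mul_inv_cancel₀ (by simp)]
    exact h7
  obtain ⟨β, hβ⟩ : ∃ β : 𝓞 K, (β : K) = (P.leadingCoeff : K) * α := by
    have h1 : IsIntegral ℤ (P.leadingCoeff • α) := isIntegral_leadingCoeff_smul P α hαP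
    rw [zsmul_eq_mul] at h1
    exact ⟨⟨_, h1⟩, rfl⟩
  set t := T.natDegree with ht
  set x : 𝓞 K := ∑ i ∈ Finset.range (t + 1), ((T.coeff i : ℤ) : 𝓞 K) * ((P.leadingCoeff : ℤ) : 𝓞 K) ^ (t - i) * β ^ i with hx
  have hxK : (x : K) = (P.leadingCoeff : K) ^ t * Tα := by
    rw [hx, hTα, eval₂_eq_sum_range, Finset.mul_sum, RingOfIntegers.coe_eq_algebraMap, map_sum]
    refine Finset.sum_congr rfl (fun i hi => ?_)
    rw [Finset.mem_range] at hi
    rw [map_mul, map_mul, map_pow, map_pow, map_intCast, map_intCast, ← RingOfIntegers.coe_eq_algebraMap, hβ, eq_intCast]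
    rw [mul_pow, show (P.leadingCoeff : K) ^ t = (P.leadingCoeff : K) ^ (t - i) * (P.leadingCoeff : K) ^ i by
      rw [← pow_add]; congr 1; omega]
    ring
  have haK : (P.leadingCoeff : K) ≠ 0 := by exact_mod_cast ha0
  have hx0 : x ≠ 0 := by
    intro h
    have h1 : (x : K) = 0 := by rw [h]; rfl
    rw [hxK] at h1
    exact (mul_ne_zero (pow_ne_zero _ haK) hTα0) h1
  have hvx : v.valuation K (x : K) ≤ WithZero.exp (-((m - s : ℕ) : ℤ)) := by
    rw [hxK, map_mul, map_pow]
    calc v.valuation K (P.leadingCoeff : K) ^ t * v.valuation K Tα ≤ 1 * v.valuation K Tα := by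
          apply mul_le_mul_left
          exact pow_le_one₀ zero_le (val_int v _)
      _ = v.valuation K Tα := one_mul _
      _ ≤ _ := hvT
  have hB : ∀ φ : K →+* ℂ, ‖φ (x : K)‖ ≤ ((P.leadingCoeff.natAbs ^ t * len T : ℕ) : ℝ) := by
    intro φ
    have h1 : ‖φ α‖ ≤ 1 := by
      apply hroots
      have h2 := congrArg φ hα
      rw [hom_eval₂, map_zero] at h2
      rw [aeval_def, ← h2]
      congr 1
      exact RingHom.ext_int _ _
    rw [hxK, map_mul, map_pow, map_intCast, norm_mul, norm_pow, Complex.norm_intCast]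
    have h3 := emb_bound φ h1 T
    push_cast
    rw [Nat.cast_natAbs, Int.cast_abs]
    exact mul_le_mul_of_nonneg_left h3 (by positivity)
  have := norm_bound v x hx0 (m - s) hvx _ hB
  rwa [hfin] at this

end Pool.Agent.Q20.ML
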